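import Mathlib

/-!
# Isolated points of semialgebraic sets: definitions and statements (analytic part)
-/

set_option autoImplicit false

namespace Pool.Agent.W973.IP

open MvPolynomial

/-- Points of `ℝⁿ`. -/
abbrev Vec (n : ℕ) := Fin n → ℝ

/-- The value of a polynomial in two blocks of variables. -/
noncomputable def hv {n : ℕ} (P : MvPolynomial (Fin n ⊕ Fin n) ℚ) (u w : Vec n) : ℝ :=
  aeval (Sum.elim u w) P

/-- `1 + |w|²`. -/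
noncomputable def X {n : ℕ} (w : Vec n) : ℝ := 1 + ∑ j, w j ^ 2

/-- The linear form with coefficients `s ^ j`. -/
noncomputable def Lf {n : ℕ} (s : ℕ) (w : Vec n) : ℝ := ∑ j : Fin n, (s : ℝ) ^ (j : ℕ) * w j

/-- `1` or a coordinate. -/
def ow {n : ℕ} (w : Vec n) (o : Option (Fin n)) : ℝ := o.elim 1 w

/-- Number of linear forms. -/
def MM (n : ℕ) : ℕ := n * (n + 1) ^ 2 + 1

/-- Index of the nonlinear features. -/
abbrev Tx (n : ℕ) := Option (Fin n) × Fin (MM n) × Fin (2 * (n + 1))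

/-- Index of the features. -/
abbrev Ft (n : ℕ) := Fin n ⊕ Tx n

/-- Number of squarings for the weight. -/
def b0 (n : ℕ) : ℕ := (n + 4) ^ 2

/-- Exponent of the weight. -/
def NN (n : ℕ) : ℕ := 2 ^ b0 n

/-- The perturbation. -/
noncomputable def qa {n : ℕ} (a : Ft n → ℝ) (u w : Vec n) : ℝ :=
  X w ^ (n + 2) + ∑ l, a (Sum.inl l) * u l +
    ∑ t : Tx n, a (Sum.inr t) * (Lf (t.2.1 : ℕ) w ^ (t.2.2 : ℕ) * ow w t.1)

/-- The perturbed function. -/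
noncomputable def G {n : ℕ} (P : MvPolynomial (Fin n ⊕ Fin n) ℚ) (a : Ft n → ℝ) (c e : ℝ)
    (u w : Vec n) : ℝ :=
  hv P u w * X w ^ NN n - c * ∑ l, u l ^ 6 + e * qa a u w

/-- Partial derivatives of `G` in the first block. -/
noncomputable def GU {n : ℕ} (P : MvPolynomial (Fin n ⊕ Fin n) ℚ) (a : Ft n → ℝ) (c e : ℝ)
    (l : Fin n) (u w : Vec n) : ℝ :=
  hv (pderiv (Sum.inl l) P) u w * X w ^ NN n - 6 * c * u l ^ 5 + e * a (Sum.inl l)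

/-- Partial derivatives of `G` in the second block. -/
noncomputable def GW {n : ℕ} (P : MvPolynomial (Fin n ⊕ Fin n) ℚ) (a : Ft n → ℝ) (_c e : ℝ)
    (j : Fin n) (u w : Vec n) : ℝ :=
  hv (pderiv (Sum.inr j) P) u w * X w ^ NN n +
    hv P u w * ((NN n : ℝ) * X w ^ (NN n - 1) * (2 * w j)) +
    e * (((n : ℝ) + 2) * X w ^ (n + 1) * (2 * w j) +
      ∑ t : Tx n, a (Sum.inr t) *
        (((t.2.2 : ℕ) : ℝ) * Lf (t.2.1 : ℕ) w ^ ((t.2.2 : ℕ) - 1) *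
            (((t.2.1 : ℕ) : ℝ) ^ (j : ℕ)) * ow w t.1 +
          Lf (t.2.1 : ℕ) w ^ (t.2.2 : ℕ) * (if t.1 = some j then 1 else 0)))

/-- Fritz John points with `r` atoms. -/
structure FJ {n : ℕ} (P : MvPolynomial (Fin n ⊕ Fin n) ℚ) (a : Ft n → ℝ) (c e v : ℝ) (r : ℕ)
    (u : Vec n) (w : Fin r → Vec n) (lam : Fin r → ℝ) : Prop where
  pos : ∀ i, 0 < lam i
  sum : ∑ i, lam i = 1
  inj : Function.Injective w
  val : ∀ i, G P a c e u (w i) = v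
  gw : ∀ i j, GW P a c e j u (w i) = 0
  gu : ∀ l, ∑ i, lam i * GU P a c e l u (w i) = 0

/-- Number of features. -/
def fa (n : ℕ) : ℕ := n + (n + 1) * (MM n * (2 * (n + 1)))

/-- Number of bits of the degrees of the relations. -/
def bb (n : ℕ) : ℕ := (b0 n + 30 * (n + 1) ^ 3 + fa n + 3) * (fa n + 1) + 1

/-- Numbering of the features. -/
def idx {n : ℕ} : Ft n → ℕ
  | Sum.inl l => l
  | Sum.inr (o, s, d) =>
    n + ((o.elim 0 fun j => (j : ℕ) + 1) * MM n + (s : ℕ)) * (2 * (n + 1)) + (d : ℕ)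

/-- Iterated square roots of `2`. -/
noncomputable def rt (i : ℕ) : ℝ := (2 : ℝ) ^ ((1 / 2 : ℝ) ^ i)

/-- The explicit coefficients. -/
noncomputable def aE (n : ℕ) : Ft n → ℝ := fun t => rt (bb n * (fa n - idx t))

/-! ### Algebraic statements -/

/-- `f` is a polynomial function over `k` with individual degrees at most `d`. -/
def BD (k : Type) [Field k] [Algebra k ℝ] {ι : Type} (d : ℕ) (f : (ι → ℝ) → ℝ) : Prop :=
  ∃ p : MvPolynomial ι k, (∀ i, p.degreeOf i ≤ d) ∧ ∀ y, f y = aeval y p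

/-- Dimension counting. -/
def S_DC : Prop := ∀ (k : Type) [Field k] [Algebra k ℝ] (ι κ : Type) [Fintype ι] [Fintype κ]
  (d D : ℕ) (F : κ → (ι → ℝ) → ℝ) (Q : (ι → ℝ) → ℝ),
  Fintype.card ι < Fintype.card κ → 1 ≤ d → (d * Fintype.card κ) ^ Fintype.card ι ≤ D →
  (∀ x, BD k d (F x)) → BD k d Q →
  ∃ R : MvPolynomial κ k, R ≠ 0 ∧ (∀ x, R.degreeOf x ≤ D) ∧
    ∀ y, Q y ≠ 0 → aeval (fun x => F x y / Q y) R = 0

/-- Independence of the iterated square roots up to a given degree. -/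
def S_IND : Prop := ∀ (A ξ : Type) [Fintype A] [Fintype ξ] (b m : ℕ) (ix : A → ℕ),
  Function.Injective ix → (∀ x, ix x < m) → ∀ R : MvPolynomial (A ⊕ ξ) ℚ, R ≠ 0 →
  (∀ x, R.degreeOf (Sum.inl x) < 2 ^ b) →
  ∃ S : MvPolynomial ξ ℝ, S ≠ 0 ∧ (∀ x, S.degreeOf x ≤ R.degreeOf (Sum.inr x)) ∧
    ∀ z : ξ → ℝ, aeval z S = aeval (Sum.elim (fun x => rt (b * (m - ix x))) z) R

/-- The numbering of the features is injective and bounded. -/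
def S_IDX : Prop := ∀ n : ℕ, Function.Injective (idx (n := n)) ∧ (∀ t : Ft n, idx t < fa n) ∧
  Fintype.card (Ft n) = fa n

/-- A polynomial relation excludes very different scales. -/
def S_ASY : Prop := ∀ (S : MvPolynomial (Fin 2) ℝ) (N : ℕ), S ≠ 0 → S.degreeOf 0 < N →
  ∃ ε > (0 : ℝ), ∀ c e : ℝ, 0 < c → c < ε → 0 < e → e ≤ c ^ N → aeval ![c, e] S ≠ 0

/-- One of the linear forms separates. -/
def S_SEP : Prop := ∀ (n r : ℕ) (w : Fin r → Vec n), r ≤ n + 1 → Function.Injective w →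
  ∃ s : Fin (MM n), Function.Injective fun i => Lf (s : ℕ) (w i)

/-! ### The linear system for the features -/

/-- Index of the solved features. -/
abbrev JJ (n r : ℕ) := Fin n ⊕ (Option (Fin n) × (Fin r × Fin 2))

/-- Degree of a solved feature. -/
def dg {r : ℕ} (p : Fin r × Fin 2) : ℕ := 2 * (p.1 : ℕ) + (p.2 : ℕ)

/-- The matrix of the linear system. -/
noncomputable def mat {n r : ℕ} (s : ℕ) (e : ℝ) (u : Vec n) (w : Fin r → Vec n) :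
    Matrix (JJ n r) (JJ n r) ℝ
  | Sum.inl l, Sum.inl l' => if l = l' then e else 0
  | Sum.inl _, Sum.inr _ => 0
  | Sum.inr (o, (i, ε)), Sum.inl l =>
    if ε = 0 then (if o = none then e * u l else 0) else 0
  | Sum.inr (none, (i, ε)), Sum.inr (o', p) =>
    if ε = 0 then e * (Lf s (w i) ^ dg p * ow (w i) o')
    else if o' = none then (dg p : ℝ) * Lf s (w i) ^ (dg p - 1) else 0
  | Sum.inr (some j, (i, ε)), Sum.inr (o', p) =>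
    if ε = 0 then e * ((dg p : ℝ) * Lf s (w i) ^ (dg p - 1) * ((s : ℝ) ^ (j : ℕ)) * ow (w i) o' +
      Lf s (w i) ^ dg p * (if o' = some j then 1 else 0))
    else if o' = some j then (dg p : ℝ) * Lf s (w i) ^ (dg p - 1) else 0

/-- The unsolved features (those of another linear form or of large degree). -/
def uns {n : ℕ} (s r : ℕ) (t : Tx n) : Prop := ¬ ((t.2.1 : ℕ) = s ∧ (t.2.2 : ℕ) < 2 * r)

instance {n : ℕ} (s r : ℕ) (t : Tx n) : Decidable (uns s r t) := by unfold uns; infer_instance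

/-- The right-hand side of the linear system. -/
noncomputable def rhs {n r : ℕ} (P : MvPolynomial (Fin n ⊕ Fin n) ℚ) (s : ℕ) (c e v : ℝ)
    (u : Vec n) (w : Fin r → Vec n) (lam : Fin r → ℝ) (a : Tx n → ℝ)
    (z : Option (Fin n) → Fin r → ℝ) : JJ n r → ℝ
  | Sum.inl l => -(∑ i, lam i * (hv (pderiv (Sum.inl l) P) u (w i) * X (w i) ^ NN n) -
      6 * c * u l ^ 5)
  | Sum.inr (none, (i, ε)) => if ε = 0 then
      v - (hv P u (w i) * X (w i) ^ NN n - c * ∑ l, u l ^ 6 + e * (X (w i) ^ (n + 2) +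
        ∑ t : Tx n, if uns s r t then a t * (Lf (t.2.1 : ℕ) (w i) ^ (t.2.2 : ℕ) * ow (w i) t.1)
          else 0))
      else z none i
  | Sum.inr (some j, (i, ε)) => if ε = 0 then
      -(hv (pderiv (Sum.inr j) P) u (w i) * X (w i) ^ NN n +
        hv P u (w i) * ((NN n : ℝ) * X (w i) ^ (NN n - 1) * (2 * w i j)) +
        e * (((n : ℝ) + 2) * X (w i) ^ (n + 1) * (2 * w i j) +
          ∑ t : Tx n, if uns s r t then a t *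
            (((t.2.2 : ℕ) : ℝ) * Lf (t.2.1 : ℕ) (w i) ^ ((t.2.2 : ℕ) - 1) *
              (((t.2.1 : ℕ) : ℝ) ^ (j : ℕ)) * ow (w i) t.1 +
              Lf (t.2.1 : ℕ) (w i) ^ (t.2.2 : ℕ) * (if t.1 = some j then 1 else 0)) else 0))
      else z (some j) i

/-- The solved features, as a vector. -/
def xsol {n r : ℕ} (hr : r ≤ n + 1) (s : Fin (MM n)) (a : Ft n → ℝ) : JJ n r → ℝ
  | Sum.inl l => a (Sum.inl l)
  | Sum.inr (o, p) => a (Sum.inr (o, s, ⟨dg p, by unfold dg; omega⟩))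

/-- The matrix is invertible. -/
def S_MAT : Prop := ∀ (n r : ℕ) (s : ℕ) (e : ℝ) (u : Vec n) (w : Fin r → Vec n), e ≠ 0 →
  Function.Injective (fun i => Lf s (w i)) → (mat s e u w).det ≠ 0

/-- The solved features satisfy the linear system. -/
def S_SYS : Prop := ∀ (n r : ℕ) (hr : r ≤ n + 1) (P : MvPolynomial (Fin n ⊕ Fin n) ℚ)
  (s : Fin (MM n)) (a : Ft n → ℝ) (c e v : ℝ) (u : Vec n) (w : Fin r → Vec n) (lam : Fin r → ℝ),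
  FJ P a c e v r u w lam →
  (mat (s : ℕ) e u w).mulVec (xsol hr s a) =
    rhs P (s : ℕ) c e v u w lam (fun t => a (Sum.inr t)) (fun o i =>
      ∑ p : Fin r × Fin 2, (dg p : ℝ) * Lf (s : ℕ) (w i) ^ (dg p - 1) *
        xsol hr s a (Sum.inr (o, p)))

/-- Bound for the individual degrees. -/
def dd (n : ℕ) : ℕ := 2 * NN n + 30 * (n + 1) ^ 3

/-- Slots: the parameters are stored in a function on the features. -/
def sl {n r : ℕ} (hr : r + 1 ≤ n + 1) (s : Fin (MM n)) (o : Option (Fin n)) (i : Fin (r + 1))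
    (ε : Fin 2) : Ft n := Sum.inr (o, s, ⟨2 * (i : ℕ) + (ε : ℕ), by omega⟩)

/-- The first block. -/
def pu {n : ℕ} (y : Ft n → ℝ) : Vec n := fun l => y (Sum.inl l)

/-- The atoms. -/
def pw {n r : ℕ} (hr : r + 1 ≤ n + 1) (s : Fin (MM n)) (y : Ft n → ℝ) : Fin (r + 1) → Vec n :=
  fun i j => y (sl hr s (some j) i 0)

/-- The weights. -/
noncomputable def pl {n r : ℕ} (hr : r + 1 ≤ n + 1) (s : Fin (MM n)) (y : Ft n → ℝ) :
    Fin (r + 1) → ℝ :=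
  fun i => if i = 0 then 1 - ∑ k : Fin r, y (sl hr s none k.succ 0) else y (sl hr s none i 0)

/-- The derivatives. -/
def pz {n r : ℕ} (hr : r + 1 ≤ n + 1) (s : Fin (MM n)) (y : Ft n → ℝ) :
    Option (Fin n) → Fin (r + 1) → ℝ := fun o i => y (sl hr s o i 1)

/-- The remaining slot. -/
def pv {n r : ℕ} (hr : r + 1 ≤ n + 1) (s : Fin (MM n)) (y : Ft n → ℝ) : ℝ :=
  y (sl hr s none (0 : Fin (r + 1)) 0)

/-- Degree bounds for the determinant and for the numerators of Cramer's rule, when all data are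
functions of degree at most one. -/
def S_BDG : Prop := ∀ (ι : Type) (n r : ℕ) (P : MvPolynomial (Fin n ⊕ Fin n) ℚ),
  P.totalDegree ≤ 4 → r ≤ n + 1 → ∀ (s : ℕ) (c e v : (ι → ℝ) → ℝ) (u : Fin n → (ι → ℝ) → ℝ)
  (w : Fin r → Fin n → (ι → ℝ) → ℝ) (lam : Fin r → (ι → ℝ) → ℝ) (a : Tx n → (ι → ℝ) → ℝ)
  (z : Option (Fin n) → Fin r → (ι → ℝ) → ℝ),
  BD ℚ 1 c → BD ℚ 1 e → BD ℚ 1 v → (∀ l, BD ℚ 1 (u l)) → (∀ i j, BD ℚ 1 (w i j)) →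
  (∀ i, BD ℚ 1 (lam i)) → (∀ t, BD ℚ 1 (a t)) → (∀ o i, BD ℚ 1 (z o i)) →
  BD ℚ (dd n) (fun y => (mat s (e y) (fun l => u l y) (fun i j => w i j y)).det) ∧
  (∀ J : JJ n r, BD ℚ (dd n) (fun y =>
    ((mat s (e y) (fun l => u l y) (fun i j => w i j y)).adjugate.mulVec
      (rhs P s (c y) (e y) (v y) (fun l => u l y) (fun i j => w i j y) (fun i => lam i y)
        (fun t => a t y) (fun o i => z o i y))) J)) ∧
  (∀ f : (ι → ℝ) → ℝ, BD ℚ 1 f → BD ℚ (dd n) (fun y =>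
    f y * (mat s (e y) (fun l => u l y) (fun i j => w i j y)).det))

/-- Relation between the parameters of Fritz John points with `v = c`. -/
def S_PAR1 : Prop := ∀ (n : ℕ) (P : MvPolynomial (Fin n ⊕ Fin n) ℚ), P.totalDegree ≤ 4 →
  ∀ (r : ℕ) (s : Fin (MM n)), r ≤ n → ∃ R : MvPolynomial (Ft n ⊕ Fin 2) ℚ, R ≠ 0 ∧
  (∀ x, R.degreeOf x < 2 ^ bb n) ∧
  ∀ (a : Ft n → ℝ) (c e : ℝ) (u : Vec n) (w : Fin (r + 1) → Vec n) (lam : Fin (r + 1) → ℝ),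
    e ≠ 0 → FJ P a c e c (r + 1) u w lam → Function.Injective (fun i => Lf (s : ℕ) (w i)) →
    aeval (Sum.elim a ![c, e]) R = 0

/-- The coordinates of a Fritz John point. -/
def co {n r : ℕ} (v : ℝ) (u : Vec n) (w : Fin r → Vec n) (lam : Fin r → ℝ) :
    Unit ⊕ Fin n ⊕ (Fin r × Fin n) ⊕ Fin r → ℝ :=
  Sum.elim (fun _ => v) (Sum.elim u (Sum.elim (fun p => w p.1 p.2) lam))

/-- Relation for the coordinates of Fritz John points. -/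
def S_PAR2 : Prop := ∀ (n : ℕ) (P : MvPolynomial (Fin n ⊕ Fin n) ℚ), P.totalDegree ≤ 4 →
  ∀ (c e : ℚ), e ≠ 0 → ∀ (r : ℕ) (s : Fin (MM n)), r ≤ n →
  ∀ T : Unit ⊕ Fin n ⊕ (Fin (r + 1) × Fin n) ⊕ Fin (r + 1),
  ∃ R : MvPolynomial (Ft n ⊕ Unit) ℚ, R ≠ 0 ∧ (∀ x, R.degreeOf x < 2 ^ bb n) ∧
  ∀ (a : Ft n → ℝ) (v : ℝ) (u : Vec n) (w : Fin (r + 1) → Vec n) (lam : Fin (r + 1) → ℝ),
    FJ P a (c : ℝ) (e : ℝ) v (r + 1) u w lam → Function.Injective (fun i => Lf (s : ℕ) (w i)) →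
    aeval (Sum.elim a fun _ => co v u w lam T) R = 0

/-- No Fritz John points with `v = c` in very different scales. -/
def S_NOFJ : Prop := ∀ (n : ℕ) (P : MvPolynomial (Fin n ⊕ Fin n) ℚ), P.totalDegree ≤ 4 →
  ∃ ε > (0 : ℝ), ∀ (c e : ℝ) (r : ℕ) (u : Vec n) (w : Fin (r + 1) → Vec n)
    (lam : Fin (r + 1) → ℝ), r ≤ n → 0 < c → c < ε → 0 < e → e ≤ c ^ (2 ^ bb n) →
    ¬ FJ P (aE n) c e c (r + 1) u w lam

/-- Finiteness of Fritz John points. -/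
def S_FIN : Prop := ∀ (n : ℕ) (P : MvPolynomial (Fin n ⊕ Fin n) ℚ), P.totalDegree ≤ 4 →
  ∀ (c e : ℚ), e ≠ 0 → ∀ (r : ℕ), r ≤ n →
  {p : ℝ × Vec n × (Fin (r + 1) → Vec n) × (Fin (r + 1) → ℝ) |
    FJ P (aE n) (c : ℝ) (e : ℝ) p.1 (r + 1) p.2.1 p.2.2.1 p.2.2.2}.Finite

/-! ### Łojasiewicz exponent -/

/-- Relation for the minima on spheres. -/
def S_LOJ1 : Prop := ∀ (n : ℕ) (f : MvPolynomial (Fin n) ℝ), f.totalDegree ≤ 4 →
  ∃ R : MvPolynomial (Fin n ⊕ Fin 2) ℝ, R ≠ 0 ∧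
  (∀ x, R.degreeOf x ≤ (4 * (n + 2)) ^ (n + 1)) ∧
  ∀ b w : Vec n, w ≠ 0 → (∀ w' : Vec n, ∑ j, w' j ^ 2 = ∑ j, w j ^ 2 →
    eval w f + ∑ j, b j * w j ≤ eval w' f + ∑ j, b j * w' j) →
  aeval (Sum.elim b ![∑ j, w j ^ 2, eval w f + ∑ j, b j * w j]) R = 0

/-- Specialisation `b → 0`. -/
def S_LOJ2 : Prop := ∀ (n D : ℕ) (R : MvPolynomial (Fin n ⊕ Fin 2) ℝ), R ≠ 0 →
  (∀ x, R.degreeOf x ≤ D) → ∃ Q : MvPolynomial (Fin 2) ℝ, Q ≠ 0 ∧ Q.degreeOf 0 ≤ D ∧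
  ∀ (ρ : ℝ) (μ : Vec n → ℝ), (∀ b, aeval (Sum.elim b ![ρ, μ b]) R = 0) →
    ContinuousAt μ 0 → aeval ![ρ, μ 0] Q = 0

/-- Lower bound for positive roots at infinity. -/
def S_LOJ3 : Prop := ∀ (Q : MvPolynomial (Fin 2) ℝ) (D : ℕ), Q ≠ 0 → Q.degreeOf 0 ≤ D →
  ∃ κ > (0 : ℝ), ∃ ρ₀ > (0 : ℝ), ∀ ρ ≥ ρ₀, ∀ v > (0 : ℝ), aeval ![ρ, v] Q = 0 → κ ≤ v * ρ ^ D

/-- Effective exponent for positive polynomials of degree at most four. -/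
def S_LOJ : Prop := ∀ (n : ℕ) (f : MvPolynomial (Fin n) ℝ), f.totalDegree ≤ 4 →
  (∀ w, 0 < eval w f) → ∃ κ > (0 : ℝ), ∀ w : Vec n, κ ≤ eval w f * X w ^ ((4 * (n + 2)) ^ (n + 1))

/-! ### Analytic statements -/

/-- Existence of Fritz John points (Danskin, Carathéodory). -/
def S_FJE : Prop := ∀ (n : ℕ) (g : Vec n → Vec n → ℝ) (gU gW : Fin n → Vec n → Vec n → ℝ)
  (u₀ : Vec n) (v B : ℝ),
  Continuous (fun p : Vec n × Vec n => g p.1 p.2) →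
  (∀ l, Continuous (fun p : Vec n × Vec n => gU l p.1 p.2)) →
  (∀ (u w d : Vec n) (t : ℝ),
    HasDerivAt (fun t : ℝ => g (u + t • d) w) (∑ l, d l * gU l (u + t • d) w) t) →
  (∀ (u w : Vec n) (j : Fin n),
    HasDerivAt (fun t : ℝ => g u (w + t • (Pi.single j 1 : Vec n))) (gW j u w) 0) →
  (∀ w, v ≤ g u₀ w) → (∀ u, ‖u - u₀‖ ≤ 1 → ∃ w, g u w ≤ v ∧ ‖w‖ ≤ B) →
  (∀ w, g u₀ w ≤ v → ‖w‖ ≤ B) →
  ∃ r ≤ n, ∃ (w : Fin (r + 1) → Vec n) (lam : Fin (r + 1) → ℝ),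
    (∀ i, 0 < lam i) ∧ ∑ i, lam i = 1 ∧ Function.Injective w ∧ (∀ i, g u₀ (w i) = v) ∧
    (∀ i j, gW j u₀ (w i) = 0) ∧ ∀ l, ∑ i, lam i * gU l u₀ (w i) = 0

/-- Continuity and derivatives of `G`. -/
def S_DER : Prop := ∀ (n : ℕ) (P : MvPolynomial (Fin n ⊕ Fin n) ℚ) (a : Ft n → ℝ),
  (Continuous fun p : ℝ × ℝ × Vec n × Vec n => G P a p.1 p.2.1 p.2.2.1 p.2.2.2) ∧
  (∀ c e : ℝ, ∀ l, Continuous fun p : Vec n × Vec n => GU P a c e l p.1 p.2) ∧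
  (∀ (c e : ℝ) (u w d : Vec n) (t : ℝ),
    HasDerivAt (fun t : ℝ => G P a c e (u + t • d) w)
      (∑ l, d l * GU P a c e l (u + t • d) w) t) ∧
  (∀ (c e : ℝ) (u w : Vec n) (j : Fin n),
    HasDerivAt (fun t : ℝ => G P a c e u (w + t • (Pi.single j 1 : Vec n)))
      (GW P a c e j u w) 0)

/-- The perturbation is dominated by `X ^ (n + 2)`. -/
def S_QB : Prop := ∀ (n : ℕ) (a : Ft n → ℝ), ∃ C : ℝ, 0 ≤ C ∧ ∀ u w : Vec n,
  |qa a u w - X w ^ (n + 2)| ≤ C * (X w ^ (n + 1) + ∑ l, |u l|)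

/-- Coercivity in the second block. -/
def S_COER : Prop := ∀ (n : ℕ) (P : MvPolynomial (Fin n ⊕ Fin n) ℚ) (a : Ft n → ℝ),
  (∀ u w, 0 ≤ hv P u w) → ∀ (e₀ K : ℝ), 0 < e₀ → ∃ B : ℝ, ∀ (c e : ℝ) (u w : Vec n),
  0 ≤ c → c ≤ K → e₀ ≤ e → ‖u‖ ≤ K → G P a c e u w ≤ K → ‖w‖ ≤ B

/-- Negativity for large first block. -/
def S_UCO : Prop := ∀ (n : ℕ) (P : MvPolynomial (Fin n ⊕ Fin n) ℚ) (a : Ft n → ℝ),
  P.totalDegree ≤ 4 → ∀ (c₀ K : ℝ), 0 < c₀ → ∃ U : ℝ, ∀ (c e : ℝ) (u : Vec n),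
  c₀ ≤ c → 0 ≤ e → e ≤ K → U ≤ ‖u‖ → G P a c e u 0 < 0

/-- The maximum of the minimum is greater than `c`. -/
def Good {n : ℕ} (P : MvPolynomial (Fin n ⊕ Fin n) ℚ) (a : Ft n → ℝ) (c e : ℝ) : Prop :=
  ∃ u : Vec n, ∀ w : Vec n, c < G P a c e u w

/-- The maximum of the minimum is less than `c`. -/
def Bad {n : ℕ} (P : MvPolynomial (Fin n ⊕ Fin n) ℚ) (a : Ft n → ℝ) (c e : ℝ) : Prop :=
  ∀ u : Vec n, ∃ w : Vec n, G P a c e u w < c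

def S_GOP : Prop := ∀ (n : ℕ) (P : MvPolynomial (Fin n ⊕ Fin n) ℚ) (a : Ft n → ℝ),
  (∀ u w, 0 ≤ hv P u w) → IsOpen {p : ℝ × ℝ | 0 < p.1 ∧ 0 < p.2 ∧ Good P a p.1 p.2}

def S_BOP : Prop := ∀ (n : ℕ) (P : MvPolynomial (Fin n ⊕ Fin n) ℚ) (a : Ft n → ℝ),
  P.totalDegree ≤ 4 → IsOpen {p : ℝ × ℝ | 0 < p.1 ∧ 0 < p.2 ∧ Bad P a p.1 p.2}

/-- If the maximum of the minimum is `c`, there is a Fritz John point with value `c`. -/
def S_TRI : Prop := ∀ (n : ℕ) (P : MvPolynomial (Fin n ⊕ Fin n) ℚ) (a : Ft n → ℝ),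
  (∀ u w, 0 ≤ hv P u w) → ∀ c e : ℝ, 0 < c → 0 < e → ¬ Good P a c e → ¬ Bad P a c e →
  ∃ r ≤ n, ∃ (u : Vec n) (w : Fin (r + 1) → Vec n) (lam : Fin (r + 1) → ℝ),
    FJ P a c e c (r + 1) u w lam

/-- If the maximum of the minimum is greater than `c`, it is attained at a Fritz John point. -/
def S_MAX : Prop := ∀ (n : ℕ) (P : MvPolynomial (Fin n ⊕ Fin n) ℚ) (a : Ft n → ℝ),
  P.totalDegree ≤ 4 → (∀ u w, 0 ≤ hv P u w) → ∀ c e : ℝ, 0 < c → 0 < e → Good P a c e →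
  ∃ r ≤ n, ∃ (u : Vec n) (w : Fin (r + 1) → Vec n) (lam : Fin (r + 1) → ℝ) (v : ℝ),
    FJ P a c e v (r + 1) u w lam ∧ ∀ w' : Vec n, c < G P a c e u w'

def S_TRUE : Prop := ∀ (n : ℕ) (P : MvPolynomial (Fin n ⊕ Fin n) ℚ) (a : Ft n → ℝ),
  P.totalDegree ≤ 4 → (∀ u w, 0 ≤ hv P u w) → (∃ u, ∀ w, hv P u w ≠ 0) →
  ∃ δ > (0 : ℝ), ∀ c e : ℝ, 0 < c → c < δ → 0 < e → e < δ → Good P a c e

def S_FALSE : Prop := ∀ (n : ℕ) (P : MvPolynomial (Fin n ⊕ Fin n) ℚ) (a : Ft n → ℝ),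
  P.totalDegree ≤ 4 → (∀ u, ∃ w, hv P u w = 0) → ∀ c : ℝ, 0 < c →
  ∃ δ > (0 : ℝ), ∀ e : ℝ, 0 < e → e < δ → Bad P a c e

def S_SIGN : Prop := ∀ (n : ℕ) (P : MvPolynomial (Fin n ⊕ Fin n) ℚ) (a : Ft n → ℝ),
  P.totalDegree ≤ 4 → (∀ u w, 0 ≤ hv P u w) → ∀ (N : ℕ) (c₁ : ℝ), 1 ≤ N → 0 < c₁ →
  (∀ c e : ℝ, 0 < c → c ≤ c₁ → 0 < e → e ≤ c ^ N → Good P a c e ∨ Bad P a c e) →
  ((∃ u, ∀ w, hv P u w ≠ 0) ↔ Good P a c₁ (c₁ ^ N))

/-- The gap property of Fritz John points with `v = c`. -/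
def GapP {n : ℕ} (P : MvPolynomial (Fin n ⊕ Fin n) ℚ) (K : ℕ) : Prop :=
  ∀ (r : ℕ) (c e : ℝ) (u : Vec n) (w : Fin (r + 1) → Vec n) (lam : Fin (r + 1) → ℝ), r ≤ n →
    0 < c → 0 < e → e ≤ c ^ (2 ^ bb n) → FJ P (aE n) c e c (r + 1) u w lam →
    c * 2 ^ (2 ^ K) ≤ 1 → ∀ ε > (0 : ℝ), ∃ (r' : ℕ) (c' e' : ℝ) (u' : Vec n)
      (w' : Fin (r' + 1) → Vec n) (lam' : Fin (r' + 1) → ℝ), r' ≤ n ∧ 0 < c' ∧ c' < ε ∧ 0 < e' ∧
      e' ≤ c' ^ (2 ^ bb n) ∧ FJ P (aE n) c' e' c' (r' + 1) u' w' lam'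

/-- The analytic part of the reduction. -/
def S_CORE : Prop := ∀ (n : ℕ) (P : MvPolynomial (Fin n ⊕ Fin n) ℚ), P.totalDegree ≤ 4 →
  (∀ u w, 0 ≤ hv P u w) → ∀ K : ℕ, GapP P K →
  ((∃ u, ∀ w, hv P u w ≠ 0) ↔ ∃ r ≤ n, ∃ (u : Vec n) (w : Fin (r + 1) → Vec n)
    (lam : Fin (r + 1) → ℝ) (v : ℝ),
    FJ P (aE n) ((2 ^ (2 ^ K) : ℝ)⁻¹) ((2 ^ (2 ^ K) : ℝ)⁻¹ ^ (2 ^ bb n)) v (r + 1) u w lam ∧
    ∀ w' : Vec n, (2 ^ (2 ^ K) : ℝ)⁻¹ <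
      G P (aE n) ((2 ^ (2 ^ K) : ℝ)⁻¹) ((2 ^ (2 ^ K) : ℝ)⁻¹ ^ (2 ^ bb n)) u w')

end Pool.Agent.W973.IP
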