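import Pool.Agent.W973.IP.Defs
import Pool.Agent.H612.GalHard

/-!
# Isolated points of semialgebraic sets: the formulas of the reduction
-/

set_option autoImplicit false

namespace Pool.Agent.W973.IP

open Pool.Agent.NPC Pool.Agent.NPC.ER Pool.Agent.NPC.H612

/-- The semialgebraic set in `ℝⁿ` defined by a quantifier-free formula (variables with an index
which is not less than `n` are read as `0`). -/
def semi (n : ℕ) (φ : Fm) : Set (Fin n → ℝ) := {x | φ.Holds (xt x)}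

/-- ISOLATED-POINT-EXISTENCE: the set in `ℝⁿ` defined by the formula has an isolated point; the
dimension `n` is written in unary. -/
def IsoPt (a : List Unit × Fm) : Prop :=
  ∃ x ∈ semi a.1.length a.2, ∃ ε > (0 : ℝ), ∀ y ∈ semi a.1.length a.2, dist y x < ε → y = x

/-! ### Renaming -/

/-- Renaming of the variables of a term. -/
def tren (σ : ℕ → ℕ) : Tm → Tm
  | Tm.var i => Tm.var (σ i)
  | Tm.zero => Tm.zero
  | Tm.one => Tm.one
  | Tm.add s t => Tm.add (tren σ s) (tren σ t)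
  | Tm.neg t => Tm.neg (tren σ t)
  | Tm.mul s t => Tm.mul (tren σ s) (tren σ t)

/-- Renaming of the variables of a formula. -/
def fren (σ : ℕ → ℕ) : Fm → Fm
  | Fm.eq s t => Fm.eq (tren σ s) (tren σ t)
  | Fm.lt s t => Fm.lt (tren σ s) (tren σ t)
  | Fm.le s t => Fm.le (tren σ s) (tren σ t)
  | Fm.not φ => Fm.not (fren σ φ)
  | Fm.and φ ψ => Fm.and (fren σ φ) (fren σ ψ)
  | Fm.or φ ψ => Fm.or (fren σ φ) (fren σ ψ)

/-- The variable of a symbol. -/
def tokv (t : Tok) : List ℕ := if t.code.1 = 0 then [t.code.2] else []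

/-- The variables of a formula. -/
def fvars (φ : Fm) : List ℕ := φ.toks.flatMap tokv

/-- The variables of a term. -/
def tvars (t : Tm) : List ℕ := t.toks.flatMap tokv

/-- The instance given by a formula: the coordinates are the variables that occur. -/
def isoInst (Φ : Fm) : List Unit × Fm :=
  (List.replicate (fvars Φ).dedup.length (), fren (fun i => (fvars Φ).dedup.idxOf i) Φ)

/-- The solution set of a formula, the variables that do not occur being zero. -/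
def sols (Φ : Fm) : Set (ℕ → ℝ) := {x | (∀ i, i ∉ fvars Φ → x i = 0) ∧ Φ.Holds x}

/-- Existence of an isolated solution. -/
def IsoN (Φ : Fm) : Prop := ∃ x ∈ sols Φ, ∃ ε > (0 : ℝ), ∀ y ∈ sols Φ,
  (∀ i ∈ fvars Φ, |y i - x i| < ε) → y = x

/-! ### Combination of a finite set and a universal condition -/

/-- Homogenised constraint. -/
def scon : ER.Con → Fm
  | ER.Con.one i => Fm.eq (Tm.var (3 * i + 1)) (Tm.var 2)
  | ER.Con.add i j k => Fm.eq (Tm.add (Tm.var (3 * i + 1)) (Tm.var (3 * j + 1)))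
      (Tm.var (3 * k + 1))
  | ER.Con.mul i j k => Fm.eq (Tm.mul (Tm.var (3 * i + 1)) (Tm.var (3 * j + 1)))
      (Tm.mul (Tm.var 2) (Tm.var (3 * k + 1)))

/-- The points of `F`, together with small copies of the solutions of `κ` over them. -/
def comb (F κ : Fm) : Fm :=
  Fm.and (fren (fun i => 3 * i) F) (Fm.or
    (Fm.and (Fm.eq (Tm.var 2) Tm.zero)
      (conj ((varsOf (sysOf κ)).map fun v => Fm.eq (Tm.var (3 * v + 1)) Tm.zero)))
    (Fm.and (Fm.lt Tm.zero (Tm.var 2)) (Fm.and (conj ((sysOf κ).map scon))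
      (conj ((varsOf (sysOf κ)).map fun v => if v % 2 = 0 ∧ v / 2 ∈ fvars F then
        Fm.eq (Tm.var (3 * v + 1)) (Tm.mul (Tm.var 2) (Tm.var (3 * (v / 2)))) else tt)))))

/-- Disjunction, unused variables being zero. -/
def djp (l : List Fm) : Fm :=
  disj (l.map fun φ => Fm.and φ (conj ((l.flatMap fvars).map fun i =>
    if i ∈ fvars φ then tt else Fm.eq (Tm.var i) Tm.zero)))

/-! ### Terms -/

/-- Names of the variables. -/
def nm (ty i j : ℕ) : ℕ := 16 * Nat.pair i j + ty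

/-- The dimension. -/
def nn (S : List ER.Con) : ℕ := (varsOf S).length

/-- The `i`-th variable of the system, at the mixed point. -/
def mixT (E : List ℕ) (S : List ER.Con) (wn : ℕ → ℕ) (i : ℕ) : Tm :=
  if isE E i = true then Tm.var (nm 3 ((varsOf S).idxOf i) 0) else Tm.var (wn ((varsOf S).idxOf i))

/-- The polynomial of a constraint, as a term. -/
def conT (E : List ℕ) (S : List ER.Con) (wn : ℕ → ℕ) : ER.Con → Tm
  | ER.Con.one i => Tm.add (mixT E S wn i) (Tm.neg Tm.one)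
  | ER.Con.add i j k => Tm.add (Tm.add (mixT E S wn i) (mixT E S wn j)) (Tm.neg (mixT E S wn k))
  | ER.Con.mul i j k => Tm.add (Tm.mul (mixT E S wn i) (mixT E S wn j)) (Tm.neg (mixT E S wn k))

/-- The sum of the squares of the constraints. -/
def hT (E : List ℕ) (S : List ER.Con) (wn : ℕ → ℕ) : Tm :=
  sumT (S.map fun c => Tm.mul (conT E S wn c) (conT E S wn c))

/-- `0` or `1`. -/
def oneT (b : Bool) : Tm := if b = true then Tm.one else Tm.zero

/-- The variable `i` is the `t`-th variable, in block `b`. -/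
def isB (E : List ℕ) (S : List ER.Con) (b : Bool) (t i : ℕ) : Bool :=
  decide (isE E i = b) && decide ((varsOf S).idxOf i = t)

/-- The derivative of a constraint. -/
def dconT (E : List ℕ) (S : List ER.Con) (wn : ℕ → ℕ) (b : Bool) (t : ℕ) : ER.Con → Tm
  | ER.Con.one i => oneT (isB E S b t i)
  | ER.Con.add i j k => Tm.add (Tm.add (oneT (isB E S b t i)) (oneT (isB E S b t j)))
      (Tm.neg (oneT (isB E S b t k)))
  | ER.Con.mul i j k => Tm.add (Tm.add (Tm.mul (oneT (isB E S b t i)) (mixT E S wn j))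
      (Tm.mul (mixT E S wn i) (oneT (isB E S b t j)))) (Tm.neg (oneT (isB E S b t k)))

/-- The derivative of `hT` (`b = true`: in the first block). -/
def dhT (E : List ℕ) (S : List ER.Con) (wn : ℕ → ℕ) (b : Bool) (t : ℕ) : Tm :=
  sumT (S.map fun c => Tm.mul twoT (Tm.mul (conT E S wn c) (dconT E S wn b t c)))

/-- Powers. -/
def powT' (t : Tm) (k : ℕ) : Tm := prodT ((List.range k).map fun _ => t)

/-- Numerals. -/
def numT (k : ℕ) : Tm := natT k.bits

/-- The term for `X w`. -/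
def XT (n : ℕ) (wn : ℕ → ℕ) : Tm :=
  sumT (Tm.one :: (List.range n).map fun j => Tm.mul (Tm.var (wn j)) (Tm.var (wn j)))

/-- The term for `Lf s w`. -/
def LT (n s : ℕ) (wn : ℕ → ℕ) : Tm :=
  sumT ((List.range n).map fun j => Tm.mul (powT' (numT s) j) (Tm.var (wn j)))

/-- The term for `ow w o`. -/
def owT (wn : ℕ → ℕ) (o : ℕ) : Tm := if o = 0 then Tm.one else Tm.var (wn (o - 1))

/-- The number of a feature. -/
def ix3 (n : ℕ) (t : ℕ × ℕ × ℕ) : ℕ := n + (t.1 * MM n + t.2.1) * (2 * (n + 1)) + t.2.2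

/-- The coefficient of a feature. -/
def aT (n k : ℕ) : Tm := Tm.var (nm 8 (bb n * (fa n - k)) 0)

/-- The list of the features. -/
def trip (n : ℕ) : List (ℕ × ℕ × ℕ) :=
  (List.range (n + 1)).flatMap fun o => (List.range (MM n)).flatMap fun s =>
    (List.range (2 * (n + 1))).map fun d => (o, s, d)

/-- The term for `qa`. -/
def qaT (n : ℕ) (wn : ℕ → ℕ) : Tm :=
  sumT [powT' (XT n wn) (n + 2),
    sumT ((List.range n).map fun l => Tm.mul (aT n l) (Tm.var (nm 3 l 0))),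
    sumT ((trip n).map fun t => Tm.mul (aT n (ix3 n t))
      (Tm.mul (powT' (LT n t.2.1 wn) t.2.2) (owT wn t.1)))]

/-- The variable `c`. -/
def cV : Tm := Tm.var (nm 0 0 0)

/-- The variable `e`. -/
def eV : Tm := Tm.var (nm 1 0 0)

/-- The variable `v`. -/
def vV : Tm := Tm.var (nm 2 0 0)

/-- The term for `G`; `pT` is the term for `X w ^ NN n`. -/
def GT (E : List ℕ) (S : List ER.Con) (wn : ℕ → ℕ) (pT : Tm) : Tm :=
  sumT [Tm.mul (hT E S wn) pT,
    Tm.neg (Tm.mul cV (sumT ((List.range (nn S)).map fun l => powT' (Tm.var (nm 3 l 0)) 6))),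
    Tm.mul eV (qaT (nn S) wn)]

/-- The term for the derivative of `qa` in the second block. -/
def dqT (n : ℕ) (wn : ℕ → ℕ) (j : ℕ) : Tm :=
  sumT [Tm.mul (numT (n + 2)) (Tm.mul (powT' (XT n wn) (n + 1)) (Tm.mul twoT (Tm.var (wn j)))),
    sumT ((trip n).map fun t => Tm.mul (aT n (ix3 n t)) (Tm.add
      (Tm.mul (Tm.mul (Tm.mul (numT t.2.2) (powT' (LT n t.2.1 wn) (t.2.2 - 1)))
        (powT' (numT t.2.1) j)) (owT wn t.1))
      (Tm.mul (powT' (LT n t.2.1 wn) t.2.2) (oneT (decide (t.1 = j + 1))))))]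

/-- The term for `GW`; `dT` is the term for `NN n * X w ^ (NN n - 1)`. -/
def GWT (E : List ℕ) (S : List ER.Con) (wn : ℕ → ℕ) (pT dT : Tm) (j : ℕ) : Tm :=
  sumT [Tm.mul (dhT E S wn false j) pT,
    Tm.mul (hT E S wn) (Tm.mul dT (Tm.mul twoT (Tm.var (wn j)))),
    Tm.mul eV (dqT (nn S) wn j)]

/-- The term for `GU`. -/
def GUT (E : List ℕ) (S : List ER.Con) (wn : ℕ → ℕ) (pT : Tm) (l : ℕ) : Tm :=
  sumT [Tm.mul (dhT E S wn true l) pT,
    Tm.neg (Tm.mul (numT 6) (Tm.mul cV (powT' (Tm.var (nm 3 l 0)) 5))),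
    Tm.mul eV (aT (nn S) l)]

/-! ### Formulas -/

/-- Squares starting from `X w`. -/
def chX (n : ℕ) (wn xn : ℕ → ℕ) : Fm :=
  conj (Fm.eq (Tm.var (xn 0)) (XT n wn) :: (List.range (b0 n)).map fun t =>
    Fm.eq (Tm.var (xn (t + 1))) (Tm.mul (Tm.var (xn t)) (Tm.var (xn t))))

/-- Derivatives of the iterated squares. -/
def chD (n : ℕ) (xn dn : ℕ → ℕ) : Fm :=
  conj (Fm.eq (Tm.var (dn 0)) Tm.one :: (List.range (b0 n)).map fun t =>
    Fm.eq (Tm.var (dn (t + 1))) (Tm.mul twoT (Tm.mul (Tm.var (xn t)) (Tm.var (dn t)))))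

/-- Iterated square roots of `2`. -/
def chY (n : ℕ) : Fm :=
  conj (Fm.eq (Tm.var (nm 8 0 0)) twoT :: (List.range (bb n * fa n)).map fun t =>
    Fm.and (Fm.eq (Tm.mul (Tm.var (nm 8 (t + 1) 0)) (Tm.var (nm 8 (t + 1) 0)))
      (Tm.var (nm 8 t 0))) (Fm.lt Tm.zero (Tm.var (nm 8 (t + 1) 0))))

/-- Iterated squares. -/
def chT (m : ℕ) : Fm :=
  conj ((List.range m).map fun t => Fm.eq (Tm.var (nm 9 (t + 1) 0))
    (Tm.mul (Tm.var (nm 9 t 0)) (Tm.var (nm 9 t 0))))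

/-- Fritz John points with `r + 1` atoms. -/
def body (E : List ℕ) (S : List ER.Con) (r : ℕ) : Fm :=
  conj [chY (nn S),
    conj ((List.range (r + 1)).map fun i => chX (nn S) (nm 4 i) (nm 6 i)),
    conj ((List.range (r + 1)).map fun i => chD (nn S) (nm 6 i) (nm 7 i)),
    conj ((List.range (r + 1)).map fun i => Fm.lt Tm.zero (Tm.var (nm 5 i 0))),
    Fm.eq (sumT ((List.range (r + 1)).map fun i => Tm.var (nm 5 i 0))) Tm.one,
    conj ((List.range (r + 1)).flatMap fun i => (List.range (r + 1)).map fun i' =>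
      if i = i' then tt else Fm.not (conj ((List.range (nn S)).map fun j =>
        Fm.eq (Tm.var (nm 4 i j)) (Tm.var (nm 4 i' j))))),
    conj ((List.range (r + 1)).map fun i =>
      Fm.eq (GT E S (nm 4 i) (Tm.var (nm 6 i (b0 (nn S))))) vV),
    conj ((List.range (r + 1)).flatMap fun i => (List.range (nn S)).map fun j =>
      Fm.eq (GWT E S (nm 4 i) (Tm.var (nm 6 i (b0 (nn S)))) (Tm.var (nm 7 i (b0 (nn S)))) j)
        Tm.zero),
    conj ((List.range (nn S)).map fun l =>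
      Fm.eq (sumT ((List.range (r + 1)).map fun i => Tm.mul (Tm.var (nm 5 i 0))
        (GUT E S (nm 4 i) (Tm.var (nm 6 i (b0 (nn S)))) l))) Tm.zero)]

/-- Fritz John points with `v = c` and `0 < e ≤ c ^ (2 ^ bb n)`. -/
def gapF (E : List ℕ) (S : List ER.Con) (r : ℕ) : Fm :=
  conj [body E S r, Fm.eq (Tm.var (nm 9 0 0)) cV, chT (bb (nn S)), Fm.eq vV cV,
    Fm.lt Tm.zero cV, Fm.lt Tm.zero eV, Fm.le eV (Tm.var (nm 9 (bb (nn S)) 0))]

/-- The formula to which the gap theorem is applied. -/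
def gapD (E : List ℕ) (S : List ER.Con) : Fm :=
  disj ((List.range (nn S + 1)).map fun r => gapF E S r)

/-- The exponent of the gap. -/
def KK (E : List ℕ) (S : List ER.Con) : ℕ := kap (sysOf (gapD E S)).length

/-- Fritz John points for `c = 2 ^ - 2 ^ K` and `e = c ^ (2 ^ bb n)`. -/
def finF (E : List ℕ) (S : List ER.Con) (r : ℕ) : Fm :=
  conj [body E S r, Fm.eq (Tm.add (Tm.var (nm 9 0 0)) (Tm.var (nm 9 0 0))) Tm.one,
    chT (KK E S + bb (nn S)), Fm.eq cV (Tm.var (nm 9 (KK E S) 0)),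
    Fm.eq eV (Tm.var (nm 9 (KK E S + bb (nn S)) 0))]

/-- The formula of the finite set. -/
def FF (E : List ℕ) (S : List ER.Con) : Fm :=
  djp ((List.range (nn S + 1)).map fun r => finF E S r)

/-- The negation of the universal condition. -/
def kF (E : List ℕ) (S : List ER.Con) : Fm :=
  conj [chX (nn S) (fun j => nm 10 j 0) (fun t => nm 11 t 0),
    Fm.le (GT E S (fun j => nm 10 j 0) (Tm.var (nm 11 (b0 (nn S)) 0))) cV]

/-- The reduction. -/
def red (p : List ℕ × Fm) : List Unit × Fm :=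
  isoInst (comb (FF p.1 (sysOf (Fm.not p.2))) (kF p.1 (sysOf (Fm.not p.2))))

/-! ### Polynomials -/

/-- The `i`-th variable of the system, as a polynomial. -/
noncomputable def mixP (E : List ℕ) (S : List ER.Con) (i : ℕ) :
    MvPolynomial (Fin (nn S) ⊕ Fin (nn S)) ℚ :=
  if h : (varsOf S).idxOf i < nn S then
    (if isE E i = true then MvPolynomial.X (Sum.inl ⟨_, h⟩) else MvPolynomial.X (Sum.inr ⟨_, h⟩))
  else 0

/-- The polynomial of a constraint. -/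
noncomputable def conPo (E : List ℕ) (S : List ER.Con) : ER.Con → MvPolynomial (Fin (nn S) ⊕ Fin (nn S)) ℚ
  | ER.Con.one i => mixP E S i - 1
  | ER.Con.add i j k => mixP E S i + mixP E S j - mixP E S k
  | ER.Con.mul i j k => mixP E S i * mixP E S j - mixP E S k

/-- The sum of the squares of the constraints. -/
noncomputable def hP (E : List ℕ) (S : List ER.Con) : MvPolynomial (Fin (nn S) ⊕ Fin (nn S)) ℚ :=
  (S.map fun c => conPo E S c ^ 2).sum

/-! ### Statements -/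

def S_ISO : Prop := ∀ Φ : Fm, IsoPt (isoInst Φ) ↔ IsoN Φ

def S_COMB : Prop := ∀ F κ : Fm, (sols F).Finite → (IsoN (comb F κ) ↔
  ∃ x : ℕ → ℝ, F.Holds x ∧ ¬ ∃ z : ℕ → ℝ, (∀ i ∈ fvars F, z i = x i) ∧ κ.Holds z)

def S_DJP : Prop := ∀ l : List Fm,
  ((∀ φ ∈ l, (sols φ).Finite) → (sols (djp l)).Finite) ∧
  (∀ x, (djp l).Holds x → ∃ φ ∈ l, φ.Holds x) ∧
  (∀ φ ∈ l, ∀ x, φ.Holds x → ∃ x' : ℕ → ℝ, (∀ i ∈ fvars φ, x' i = x i) ∧ (djp l).Holds x') ∧
  (∀ i, i ∈ fvars (djp l) ↔ ∃ φ ∈ l, i ∈ fvars φ)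

/-- Values of `hT` and of its derivatives. -/
def S_HT : Prop := ∀ (E : List ℕ) (S : List ER.Con) (wn : ℕ → ℕ) (x : ℕ → ℝ),
  (hT E S wn).eval x = hv (hP E S) (fun l => x (nm 3 l 0)) (fun j => x (wn j)) ∧
  (∀ t : Fin (nn S), (dhT E S wn true t).eval x =
    hv (MvPolynomial.pderiv (Sum.inl t) (hP E S)) (fun l => x (nm 3 l 0)) (fun j => x (wn j))) ∧
  (∀ t : Fin (nn S), (dhT E S wn false t).eval x =
    hv (MvPolynomial.pderiv (Sum.inr t) (hP E S)) (fun l => x (nm 3 l 0)) (fun j => x (wn j)))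

/-- Properties of the polynomial `hP`. -/
def S_HP : Prop := ∀ (E : List ℕ) (S : List ER.Con), (hP E S).totalDegree ≤ 4 ∧
  (∀ u w, 0 ≤ hv (hP E S) u w) ∧
  (∀ u w, hv (hP E S) u w = 0 ↔ SysHolds (fun i => if isE E i = true then
    xt u ((varsOf S).idxOf i) else xt w ((varsOf S).idxOf i)) S)

/-- The sentence in terms of the polynomial. -/
def S_EARP : Prop := ∀ p : List ℕ × Fm, EAR p ↔
  ∃ u, ∀ w, hv (hP p.1 (sysOf (Fm.not p.2))) u w ≠ 0

/-- Values of the terms of `G` and of its derivatives. -/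
def S_GT : Prop := ∀ (E : List ℕ) (S : List ER.Con) (wn : ℕ → ℕ) (x : ℕ → ℝ) (pT dT : Tm),
  (∀ t ≤ bb (nn S) * fa (nn S), x (nm 8 t 0) = rt t) →
  pT.eval x = X (fun j : Fin (nn S) => x (wn j)) ^ NN (nn S) →
  dT.eval x = (NN (nn S) : ℝ) * X (fun j : Fin (nn S) => x (wn j)) ^ (NN (nn S) - 1) →
  (GT E S wn pT).eval x = G (hP E S) (aE (nn S)) (x (nm 0 0 0)) (x (nm 1 0 0))
    (fun l => x (nm 3 l 0)) (fun j => x (wn j)) ∧
  (∀ j : Fin (nn S), (GWT E S wn pT dT j).eval x = GW (hP E S) (aE (nn S)) (x (nm 0 0 0))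
    (x (nm 1 0 0)) j (fun l => x (nm 3 l 0)) (fun j => x (wn j))) ∧
  (∀ l : Fin (nn S), (GUT E S wn pT l).eval x = GU (hP E S) (aE (nn S)) (x (nm 0 0 0))
    (x (nm 1 0 0)) l (fun l => x (nm 3 l 0)) (fun j => x (wn j)))

/-- Meaning of the chains. -/
def S_CH : Prop := (∀ (n : ℕ) (wn xn : ℕ → ℕ) (x : ℕ → ℝ), (chX n wn xn).Holds x ↔
    ∀ t ≤ b0 n, x (xn t) = X (fun j : Fin n => x (wn j)) ^ 2 ^ t) ∧
  (∀ (n : ℕ) (xn dn : ℕ → ℕ) (x : ℕ → ℝ) (y : ℝ), (∀ t ≤ b0 n, x (xn t) = y ^ 2 ^ t) →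
    ((chD n xn dn).Holds x ↔ ∀ t ≤ b0 n, x (dn t) = 2 ^ t * y ^ (2 ^ t - 1))) ∧
  (∀ (n : ℕ) (x : ℕ → ℝ), (chY n).Holds x ↔ ∀ t ≤ bb n * fa n, x (nm 8 t 0) = rt t) ∧
  (∀ (m : ℕ) (x : ℕ → ℝ), (chT m).Holds x ↔ ∀ t ≤ m, x (nm 9 t 0) = x (nm 9 0 0) ^ 2 ^ t)

/-- The values of the auxiliary variables. -/
def Chains (n r : ℕ) (x : ℕ → ℝ) : Prop := (∀ t ≤ bb n * fa n, x (nm 8 t 0) = rt t) ∧
  ∀ i ≤ r, ∀ t ≤ b0 n, x (nm 6 i t) = X (fun j : Fin n => x (nm 4 i j)) ^ 2 ^ t ∧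
    x (nm 7 i t) = 2 ^ t * X (fun j : Fin n => x (nm 4 i j)) ^ (2 ^ t - 1)

/-- Fritz John points coded by an assignment. -/
def FJx (E : List ℕ) (S : List ER.Con) (r : ℕ) (x : ℕ → ℝ) : Prop :=
  FJ (hP E S) (aE (nn S)) (x (nm 0 0 0)) (x (nm 1 0 0)) (x (nm 2 0 0)) (r + 1)
    (fun l => x (nm 3 l 0)) (fun i j => x (nm 4 i j)) (fun i => x (nm 5 i 0))

/-- Meaning of `body`. -/
def S_BODY : Prop := ∀ (E : List ℕ) (S : List ER.Con) (r : ℕ) (x : ℕ → ℝ),
  (body E S r).Holds x ↔ Chains (nn S) r x ∧ FJx E S r x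

/-- An assignment for given data. -/
def S_ASG : Prop := ∀ (n r : ℕ) (c e v τ : ℝ) (u : Vec n) (w : Fin (r + 1) → Vec n)
  (lam : Fin (r + 1) → ℝ), ∃ x : ℕ → ℝ, x (nm 0 0 0) = c ∧ x (nm 1 0 0) = e ∧ x (nm 2 0 0) = v ∧
  (∀ l : Fin n, x (nm 3 l 0) = u l) ∧ (∀ (i : Fin (r + 1)) (j : Fin n), x (nm 4 i j) = w i j) ∧
  (∀ i : Fin (r + 1), x (nm 5 i 0) = lam i) ∧ (∀ t, x (nm 9 t 0) = τ ^ 2 ^ t) ∧ Chains n r x

/-- The variables of `finF` are determined. -/
def S_FV : Prop := ∀ (E : List ℕ) (S : List ER.Con) (r m : ℕ), m ∈ fvars (finF E S r) →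
  m = nm 0 0 0 ∨ m = nm 1 0 0 ∨ m = nm 2 0 0 ∨ (∃ l < nn S, m = nm 3 l 0) ∨
  (∃ i ≤ r, ∃ j < nn S, m = nm 4 i j) ∨ (∃ i ≤ r, m = nm 5 i 0) ∨
  (∃ i ≤ r, ∃ t ≤ b0 (nn S), m = nm 6 i t ∨ m = nm 7 i t) ∨
  (∃ t ≤ bb (nn S) * fa (nn S), m = nm 8 t 0) ∨
  (∃ t ≤ KK E S + bb (nn S), m = nm 9 t 0)

/-- The shared variables occur in `finF`. -/
def S_FV2 : Prop := ∀ (E : List ℕ) (S : List ER.Con) (r : ℕ),
  nm 0 0 0 ∈ fvars (finF E S r) ∧ nm 1 0 0 ∈ fvars (finF E S r) ∧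
  (∀ l < nn S, nm 3 l 0 ∈ fvars (finF E S r)) ∧
  (∀ t ≤ bb (nn S) * fa (nn S), nm 8 t 0 ∈ fvars (finF E S r))

/-- The gap property. -/
def S_GAPF : Prop := ∀ (E : List ℕ) (S : List ER.Con), GapP (hP E S) (KK E S)

/-- Finiteness. -/
def S_FINF : Prop := ∀ (E : List ℕ) (S : List ER.Con) (r : ℕ), r ≤ nn S → (sols (finF E S r)).Finite

/-- Meaning of the condition `kF` for an assignment which agrees on the shared variables. -/
def S_KF : Prop := ∀ (E : List ℕ) (S : List ER.Con) (x : ℕ → ℝ),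
  (∀ t ≤ bb (nn S) * fa (nn S), x (nm 8 t 0) = rt t) →
  ((∃ z : ℕ → ℝ, (∀ m, m ∈ fvars (FF E S) → z m = x m) ∧ (kF E S).Holds z) ↔
    ∃ w : Vec (nn S), G (hP E S) (aE (nn S)) (x (nm 0 0 0)) (x (nm 1 0 0))
      (fun l => x (nm 3 l 0)) w ≤ x (nm 0 0 0))

/-! ### Polynomial time -/

def S_PU : Prop := ∀ (α : Type) [TEnc α] (n : α → ℕ), UPoly n → UPoly (fun a => MM (n a)) ∧
  UPoly (fun a => b0 (n a)) ∧ UPoly (fun a => fa (n a)) ∧ UPoly (fun a => bb (n a))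

def S_PQ : Prop := ∀ (α : Type) [TEnc α] (n : α → ℕ) (wn : α → ℕ → ℕ), UPoly n →
  Poly (fun q : α × ℕ => wn q.1 q.2) →
  Poly (fun a => XT (n a) (wn a)) ∧ Poly (fun a => qaT (n a) (wn a)) ∧
  ∀ j : α → ℕ, UPoly j → Poly (fun a => dqT (n a) (wn a) (j a))

def S_PH : Prop := ∀ (α : Type) [TEnc α] (E : α → List ℕ) (S : α → List ER.Con)
  (wn : α → ℕ → ℕ), Poly E → Poly S → Poly (fun q : α × ℕ => wn q.1 q.2) →
  Poly (fun a => hT (E a) (S a) (wn a)) ∧
  ∀ (b : Bool) (t : α → ℕ), Poly t → Poly (fun a => dhT (E a) (S a) (wn a) b (t a))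

def S_PG : Prop := ∀ (α : Type) [TEnc α] (E : α → List ℕ) (S : α → List ER.Con)
  (wn : α → ℕ → ℕ) (pT dT : α → Tm), Poly E → Poly S → Poly (fun q : α × ℕ => wn q.1 q.2) →
  Poly pT → Poly dT →
  Poly (fun a => GT (E a) (S a) (wn a) (pT a)) ∧
  (∀ j : α → ℕ, UPoly j → Poly (fun a => GWT (E a) (S a) (wn a) (pT a) (dT a) (j a))) ∧
  (∀ l : α → ℕ, Poly l → Poly (fun a => GUT (E a) (S a) (wn a) (pT a) (l a)))

def S_PB : Prop := ∀ (α : Type) [TEnc α] (E : α → List ℕ) (S : α → List ER.Con) (r : α → ℕ),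
  Poly E → Poly S → UPoly r → Poly (fun a => body (E a) (S a) (r a))

def S_PF : Prop := ∀ (α : Type) [TEnc α] (E : α → List ℕ) (S : α → List ER.Con),
  Poly E → Poly S → Poly (fun a => FF (E a) (S a)) ∧ Poly (fun a => kF (E a) (S a))

def S_PC : Prop := ∀ (α : Type) [TEnc α] (F κ : α → Fm), Poly F → Poly κ →
  Poly (fun a => isoInst (comb (F a) (κ a)))

def S_PR : Prop := Poly red

/-- Membership. -/
def S_MEM : Prop := InEAR (lang IsoPt)

/-- Correctness of the reduction. -/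
def S_RED : Prop := ∀ p : List ℕ × Fm, EAR p ↔ IsoPt (red p)

end Pool.Agent.W973.IP
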