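import Pool.Agent.W19.IP.DC
import Pool.Agent.W571.IP.Ind
import Pool.Agent.W371.IP.Idx
import Pool.Agent.W237.IP.Sep
import Pool.Agent.W55.IP.Asy
import Pool.Agent.W493.IP.Loj3
import Pool.Agent.W806.IP.LOJ2
import Pool.Agent.W880.IP.LOJ1
import Pool.Agent.W768.IP.Loj
import Pool.Agent.W766.IP.MAT
import Pool.Agent.W61.IP.Sys
import Pool.Agent.W412.IP.BDG
import Pool.Agent.W891.IP.PAR1
import Pool.Agent.W376.IP.Par2
import Pool.Agent.W395.IP.Nofj
import Pool.Agent.W803.IP.Fin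
import Pool.Agent.W451.IP.FJE
import Pool.Agent.W7.IP.Der
import Pool.Agent.W636.IP.Qb
import Pool.Agent.W382.IP.COER
import Pool.Agent.W131.IP.Uco
import Pool.Agent.W274.IP.Gop
import Pool.Agent.W311.IP.BOP
import Pool.Agent.W505.IP.TRI
import Pool.Agent.W699.IP.MAX
import Pool.Agent.W692.IP.TrueT
import Pool.Agent.W563.IP.False
import Pool.Agent.W60.IP.Sign
import Pool.Agent.W392.IP.Core
import Pool.Agent.W308.IP.Iso
import Pool.Agent.W111.IP.Comb
import Pool.Agent.W585.IP.DJP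
import Pool.Agent.W366.IP.HT
import Pool.Agent.W853.IP.HP
import Pool.Agent.W154.IP.EARP
import Pool.Agent.W236.IP.GT
import Pool.Agent.W490.IP.CH
import Pool.Agent.W883.IP.Body
import Pool.Agent.W991.IP.Asg
import Pool.Agent.W765.IP.FV
import Pool.Agent.W280.IP.Gapf
import Pool.Agent.W293.IP.Finf
import Pool.Agent.W348.IP.KF
import Pool.Agent.W212.IP.RedT
import Pool.Agent.W672.IP.PU
import Pool.Agent.W672.IP.PQ
import Pool.Agent.W193.IP.PH
import Pool.Agent.W428.IP.PG
import Pool.Agent.W597.IP.PB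
import Pool.Agent.W303.IP.PF
import Pool.Agent.W40.IP.PC
import Pool.Agent.W654.IP.Mem
import Pool.Agent.W392.IP.PR

/-!
# Isolated points of semialgebraic sets: assembly
-/

set_option autoImplicit false

namespace Pool.Agent.W973.IP

open Pool.Agent.NPC Pool.Agent.NPC.ER Pool.Agent.NPC.H612

theorem pc : S_DC := W19.IP.dc
theorem pind : S_IND := W571.IP.ind
theorem pidx : S_IDX := W371.IP.idxT
theorem psep : S_SEP := W237.IP.sep
theorem pasy : S_ASY := W55.IP.asy
theorem ploj : S_LOJ := W768.IP.loj (W880.IP.loj1 pc) W806.IP.loj2 W493.IP.loj3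
theorem ppar1 : S_PAR1 := W891.IP.PAR1.par1 pc pidx W766.IP.matT W61.IP.sysT W412.IP.bdg
theorem ppar2 : S_PAR2 := W376.IP.par2 pc pidx W766.IP.matT W61.IP.sysT W412.IP.bdg
theorem pnofj : S_NOFJ := W395.IP.nofj ppar1 pind pidx pasy psep
theorem pfin : S_FIN := W803.IP.fin ppar2 pind pidx psep
theorem pfje : S_FJE := W451.IP.fje
theorem pder : S_DER := W7.IP.der
theorem pqb : S_QB := W636.IP.qb
theorem pcoer : S_COER := W382.IP.coer pqb
theorem puco : S_UCO := W131.IP.Uco.uco pqb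
theorem psign : S_SIGN := W60.IP.sign (W274.IP.gop pder pcoer) (W311.IP.bop pder puco)
  (W692.IP.trueT ploj pqb) (W563.IP.falseT pder puco)
theorem pcore : S_CORE := W392.IP.core (W505.IP.tri pfje pder pcoer)
  (W699.IP.maxT pfje pder pcoer puco) pnofj psign
theorem php : S_HP := W853.IP.hpT
theorem pgt : S_GT := W236.IP.gtT W366.IP.htT
theorem pch : S_CH := W490.IP.chTT
theorem pbody : S_BODY := W883.IP.bodyT pgt pch
theorem pasg : S_ASG := W991.IP.asg
theorem pfv : S_FV := W765.IP.fvT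
theorem pfv2 : S_FV2 := W765.IP.fv2T
theorem pdjp : S_DJP := W585.IP.djpT
theorem pred : S_RED := W212.IP.redT W308.IP.iso W111.IP.combT pdjp php (W154.IP.earp php)
  pbody pch pasg pfv pfv2 (W280.IP.gapfT pbody pch pasg) (W293.IP.finfT pbody pch pfv pfin php)
  (W348.IP.kfT pgt pch pfv pfv2 pdjp) pcore
theorem ppu : S_PU := W672.IP.puT
theorem ppq : S_PQ := W672.IP.pqT ppu
theorem ppg : S_PG := W428.IP.pgT ppu ppq W193.IP.phT
theorem ppb : S_PB := NPC.W597IP.pbT ppu ppq ppg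
theorem ppr : S_PR := W392.IP.prT (W303.IP.pfT ppu ppq ppg ppb) W40.IP.pcT

/-- The existence of an isolated point is `∃∀ℝ`-complete. -/
theorem isoPt_complete : EARComplete (lang IsoPt) :=
  ⟨W654.IP.mem, EARHard.of_poly ppr pred⟩

end Pool.Agent.W973.IP
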